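import Mathlib

/-!
# The polynomial `P_{018}` is not convex

Full (negative) answer of Q1 of MP_dbc085_nt.
-/

open Polynomial

namespace Pool.Agent.Results.MP_dbc085_nt.NotConvex

/-- The polynomial `s_j` with `s_j(N) = 1 ^ j + ⋯ + N ^ j` (see `faul_eval`):
`s_j(x) = (B_{j+1}(x+1) - B_{j+1}) / (j+1)`. -/
noncomputable def faul (j : ℕ) : ℚ[X] :=
  C (1 / ((j : ℚ) + 1)) * ((Polynomial.bernoulli (j + 1)).comp (X + 1) - C (_root_.bernoulli (j + 1)))

/-- The exponent `∑_{j=1}^r (-1)^{j+1} B_j / (j j!) (s_j(x) - x) z^j`, as a power series in `z`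
over `ℚ[x]`. -/
noncomputable def expo (r : ℕ) : PowerSeries ℚ[X] :=
  ∑ j ∈ Finset.Icc 1 r, PowerSeries.monomial j
    (C ((-1) ^ (j + 1) * _root_.bernoulli j / (j * (j.factorial : ℚ))) * (faul j - X))

/-- The exponential `∑_k A ^ k / k!` of a power series `A` without constant term; the coefficient
of `z ^ n` is a finite sum. -/
noncomputable def psExp (A : PowerSeries ℚ[X]) : PowerSeries ℚ[X] :=
  PowerSeries.mk fun n =>
    ∑ k ∈ Finset.range (n + 1), C (1 / (k.factorial : ℚ)) * PowerSeries.coeff n (A ^ k)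

/-- `P_{01r}(x)`: `(-4)^r r!` times the coefficient of `z ^ r` in
`e^z β(z)^{r+1} exp(∑_{j=1}^r (-1)^{j+1} B_j / (j j!) (s_j(x) - x) z^j)`, `β(z) = z/(e^z-1)`. -/
noncomputable def P01 (r : ℕ) : ℚ[X] :=
  C ((-4) ^ r * (r.factorial : ℚ)) * PowerSeries.coeff r
    (PowerSeries.exp ℚ[X] * bernoulliPowerSeries ℚ[X] ^ (r + 1) * psExp (expo r))

/-- `faul j` takes the value `1 ^ j + ⋯ + N ^ j` at `N`. -/
lemma faul_eval (j : ℕ) (hj : 1 ≤ j) (N : ℕ) :
    (faul j).eval (N : ℚ) = ∑ i ∈ Finset.Icc 1 N, (i : ℚ) ^ j := by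
  have h := Polynomial.sum_range_pow_eq_bernoulli_sub (N + 1) j
  have h2 : ∑ k ∈ Finset.range (N + 1), (k : ℚ) ^ j = ∑ i ∈ Finset.Icc 1 N, (i : ℚ) ^ j := by
    rw [Finset.sum_range_succ', ]
    have h0 : ((0 : ℕ) : ℚ) ^ j = 0 := by
      rw [Nat.cast_zero]; exact zero_pow (by omega)
    rw [h0, add_zero, Finset.range_eq_Ico, Finset.sum_Ico_add' (fun k : ℕ => (k : ℚ) ^ j) 0 N 1]
    rfl
  rw [h2] at h
  unfold faul
  rw [eval_mul, eval_sub, eval_C, eval_C, eval_comp, eval_add, eval_X, eval_one]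
  have h3 : (j : ℚ) + 1 ≠ 0 := by positivity
  push_cast at h
  rw [Nat.succ_eq_add_one] at h
  rw [← h]
  field_simp

/-! ### Truncated computations -/

/-- The first nine coefficients. -/
def Tr (f : PowerSeries ℚ) (l : List ℚ) : Prop := ∀ n ≤ 8, PowerSeries.coeff n f = l.getD n 0

/-- Truncated product. -/
def mulL (a b : List ℚ) : List ℚ :=
  (List.range 9).map fun n => ((List.range (n + 1)).map fun k => a.getD k 0 * b.getD (n - k) 0).sum

lemma Tr.mul {f g : PowerSeries ℚ} {a b : List ℚ} (hf : Tr f a) (hg : Tr g b) :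
    Tr (f * g) (mulL a b) := by
  intro n hn
  rw [PowerSeries.coeff_mul, Finset.Nat.sum_antidiagonal_eq_sum_range_succ_mk]
  have h1 : (mulL a b).getD n 0 =
      ((List.range (n + 1)).map fun k => a.getD k 0 * b.getD (n - k) 0).sum := by
    unfold mulL
    rw [List.getD_eq_getElem?_getD, List.getElem?_map, List.getElem?_range (by omega)]
    rfl
  rw [h1, Finset.sum_range]
  rw [← List.sum_ofFn, List.ofFn_eq_map, ← List.map_coe_finRange_eq_range, List.map_map]
  congr 1
  refine List.map_congr_left fun i _ => ?_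
  simp only [Function.comp]
  rw [hf i (by have := i.2; omega), hg (n - i) (by omega)]

lemma Tr.mul' {f g : PowerSeries ℚ} {a b c : List ℚ} (hf : Tr f a) (hg : Tr g b)
    (h : mulL a b = c) : Tr (f * g) c := h ▸ hf.mul hg

def lb : List ℚ := [1, -(1/2), 1/12, 0, -(1/720), 0, 1/30240, 0, -(1/1209600)]
def le : List ℚ := [1, 1, 1/2, 1/6, 1/24, 1/120, 1/720, 1/5040, 1/40320]
def lb2 : List ℚ := [1, (-1), 5/12, -(1/12), 1/240, 1/720, -(1/6048), -(1/30240), 1/172800]
def lb4 : List ℚ := [1, (-2), 11/6, (-1), 251/720, -(3/40), 221/30240, 11/15120, -(199/725760)]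
def lb8 : List ℚ :=
  [1, (-4), 23/3, -(28/3), 967/120, -(469/90), 363/140, (-1), 1070017/3628800]
def lb9 : List ℚ :=
  [1, -(9/2), 39/4, -(27/2), 1069/80, -(801/80), 29531/5040, -(761/280), 1]
def leb : List ℚ := [1, -(7/2), 23/4, -(35/6), 967/240, -(469/240), 363/560, -(1/8), 0]
def la0 : List ℚ := [1, 0, 0, 0, 0, 0, 0, 0, 0]
def la1 : List ℚ := [0, -(3/2), -(11/24), 0, 19/576, 0, -(113/25920), 0, 1363/1935360]
def la2 : List ℚ := [0, 0, 9/4, 11/8, 121/576, -(19/192), -(209/6912), 113/8640, 25303/4976640]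
def la3 : List ℚ :=
  [0, 0, 0, -(27/8), -(99/32), -(121/128), 1747/13824, 209/1536, -(4777/552960)]
def la4 : List ℚ := [0, 0, 0, 0, 81/16, 99/16, 363/128, 305/2304, -(120791/331776)]
def la5 : List ℚ := [0, 0, 0, 0, 0, -(243/32), -(1485/128), -(1815/256), -(2045/1536)]
def la6 : List ℚ := [0, 0, 0, 0, 0, 0, 729/64, 2673/128, 16335/1024]
def la7 : List ℚ := [0, 0, 0, 0, 0, 0, 0, -(2187/128), -(18711/512)]
def la8 : List ℚ := [0, 0, 0, 0, 0, 0, 0, 0, 6561/256]
def lE : List ℚ := [1, -(3/2), 2/3, 1/8, -(1/6), -(1/80), 7/180, 17/13440, -(809/90720)]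

lemma bern_vals : _root_.bernoulli 0 = 1 ∧ _root_.bernoulli 1 = -1/2 ∧ _root_.bernoulli 2 = 1/6 ∧
    _root_.bernoulli 3 = 0 ∧ _root_.bernoulli 4 = -1/30 ∧ _root_.bernoulli 5 = 0 ∧
    _root_.bernoulli 6 = 1/42 ∧ _root_.bernoulli 7 = 0 ∧ _root_.bernoulli 8 = -1/30 := by
  have h0 : _root_.bernoulli 0 = 1 := bernoulli_zero
  have h1 : _root_.bernoulli 1 = -1/2 := bernoulli_one
  have h3 : _root_.bernoulli 3 = 0 := bernoulli_eq_zero_of_odd (by decide) (by norm_num)
  have h5 : _root_.bernoulli 5 = 0 := bernoulli_eq_zero_of_odd (by decide) (by norm_num)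
  have h7 : _root_.bernoulli 7 = 0 := bernoulli_eq_zero_of_odd (by decide) (by norm_num)
  have c32 : Nat.choose 3 2 = 3 := by decide
  have c52 : Nat.choose 5 2 = 10 := by decide
  have c54 : Nat.choose 5 4 = 5 := by decide
  have c72 : Nat.choose 7 2 = 21 := by decide
  have c74 : Nat.choose 7 4 = 35 := by decide
  have c76 : Nat.choose 7 6 = 7 := by decide
  have c92 : Nat.choose 9 2 = 36 := by decide
  have c94 : Nat.choose 9 4 = 126 := by decide
  have c96 : Nat.choose 9 6 = 84 := by decide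
  have c98 : Nat.choose 9 8 = 9 := by decide
  have h2 : _root_.bernoulli 2 = 1/6 := by
    have h := _root_.sum_bernoulli 3
    rw [if_neg (by norm_num)] at h
    simp only [Finset.sum_range_succ, Finset.sum_range_zero, h0, h1, Nat.choose_zero_right,
      Nat.choose_one_right, c32] at h
    push_cast at h
    linarith
  have h4 : _root_.bernoulli 4 = -1/30 := by
    have h := _root_.sum_bernoulli 5
    rw [if_neg (by norm_num)] at h
    simp only [Finset.sum_range_succ, Finset.sum_range_zero, h0, h1, h2, h3,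
      Nat.choose_zero_right, Nat.choose_one_right, c52, c54] at h
    push_cast at h
    linarith
  have h6 : _root_.bernoulli 6 = 1/42 := by
    have h := _root_.sum_bernoulli 7
    rw [if_neg (by norm_num)] at h
    simp only [Finset.sum_range_succ, Finset.sum_range_zero, h0, h1, h2, h3, h4, h5,
      Nat.choose_zero_right, Nat.choose_one_right, c72, c74, c76] at h
    push_cast at h
    linarith
  have h8 : _root_.bernoulli 8 = -1/30 := by
    have h := _root_.sum_bernoulli 9
    rw [if_neg (by norm_num)] at h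
    simp only [Finset.sum_range_succ, Finset.sum_range_zero, h0, h1, h2, h3, h4, h5, h6, h7,
      Nat.choose_zero_right, Nat.choose_one_right, c92, c94, c96, c98] at h
    push_cast at h
    linarith
  exact ⟨h0, h1, h2, h3, h4, h5, h6, h7, h8⟩

lemma facs : ((0 : ℕ).factorial : ℚ) = 1 ∧ ((1 : ℕ).factorial : ℚ) = 1 ∧
    ((2 : ℕ).factorial : ℚ) = 2 ∧ ((3 : ℕ).factorial : ℚ) = 6 ∧ ((4 : ℕ).factorial : ℚ) = 24 ∧
    ((5 : ℕ).factorial : ℚ) = 120 ∧ ((6 : ℕ).factorial : ℚ) = 720 ∧
    ((7 : ℕ).factorial : ℚ) = 5040 ∧ ((8 : ℕ).factorial : ℚ) = 40320 := by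
  refine ⟨?_, ?_, ?_, ?_, ?_, ?_, ?_, ?_, ?_⟩ <;> norm_num [Nat.factorial]

lemma tr_b : Tr (bernoulliPowerSeries ℚ) lb := by
  intro n hn
  obtain ⟨b0, b1, b2, b3, b4, b5, b6, b7, b8⟩ := bern_vals
  obtain ⟨f0, f1, f2, f3, f4, f5, f6, f7, f8⟩ := facs
  unfold bernoulliPowerSeries
  rw [PowerSeries.coeff_mk]
  simp only [eq_ratCast, Rat.cast_id]
  interval_cases n
  · rw [b0, f0]; norm_num [lb]
  · rw [b1, f1]; norm_num [lb]
  · rw [b2, f2]; norm_num [lb]
  · rw [b3, f3]; norm_num [lb]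
  · rw [b4, f4]; norm_num [lb]
  · rw [b5, f5]; norm_num [lb]
  · rw [b6, f6]; norm_num [lb]
  · rw [b7, f7]; norm_num [lb]
  · rw [b8, f8]; norm_num [lb]

lemma tr_e : Tr (PowerSeries.exp ℚ) le := by
  intro n hn
  obtain ⟨f0, f1, f2, f3, f4, f5, f6, f7, f8⟩ := facs
  rw [PowerSeries.coeff_exp]
  simp only [eq_ratCast, Rat.cast_id]
  interval_cases n
  · rw [f0]; norm_num [le]
  · rw [f1]; norm_num [le]
  · rw [f2]; norm_num [le]
  · rw [f3]; norm_num [le]
  · rw [f4]; norm_num [le]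
  · rw [f5]; norm_num [le]
  · rw [f6]; norm_num [le]
  · rw [f7]; norm_num [le]
  · rw [f8]; norm_num [le]

lemma tr_eb : Tr (PowerSeries.exp ℚ * bernoulliPowerSeries ℚ ^ 9) leb := by
  have h2 : Tr (bernoulliPowerSeries ℚ ^ 2) lb2 := by
    rw [sq]; exact tr_b.mul' tr_b (by decide +kernel)
  have h4 : Tr (bernoulliPowerSeries ℚ ^ 4) lb4 := by
    rw [show (4 : ℕ) = 2 + 2 from rfl, pow_add]; exact h2.mul' h2 (by decide +kernel)
  have h8 : Tr (bernoulliPowerSeries ℚ ^ 8) lb8 := by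
    rw [show (8 : ℕ) = 4 + 4 from rfl, pow_add]; exact h4.mul' h4 (by decide +kernel)
  have h9 : Tr (bernoulliPowerSeries ℚ ^ 9) lb9 := by
    rw [pow_succ]; exact h8.mul' tr_b (by decide +kernel)
  exact tr_e.mul' h9 (by decide +kernel)

/-- evaluation at `x` -/
noncomputable abbrev ev (x : ℚ) : ℚ[X] →+* ℚ := Polynomial.evalRingHom x

lemma map_bern (x : ℚ) : PowerSeries.map (ev x) (bernoulliPowerSeries ℚ[X]) =
    bernoulliPowerSeries ℚ := by
  ext n
  rw [PowerSeries.coeff_map]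
  unfold bernoulliPowerSeries
  rw [PowerSeries.coeff_mk, PowerSeries.coeff_mk]
  rw [← Polynomial.C_eq_algebraMap]
  simp [ev]

lemma coeff_map_psExp (x : ℚ) (A : PowerSeries ℚ[X]) (n : ℕ) :
    PowerSeries.coeff n (PowerSeries.map (ev x) (psExp A)) =
      ∑ k ∈ Finset.range (n + 1), (1 / (k.factorial : ℚ)) *
        PowerSeries.coeff n ((PowerSeries.map (ev x) A) ^ k) := by
  rw [PowerSeries.coeff_map]
  unfold psExp
  rw [PowerSeries.coeff_mk, map_sum]
  refine Finset.sum_congr rfl fun k _ => ?_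
  rw [map_mul, ← map_pow (PowerSeries.map (ev x)) A k, PowerSeries.coeff_map]
  congr 1
  simp [ev]

lemma eval_P01 (r : ℕ) (x : ℚ) : (P01 r).eval x = ((-4) ^ r * (r.factorial : ℚ)) *
    PowerSeries.coeff r (PowerSeries.exp ℚ * bernoulliPowerSeries ℚ ^ (r + 1) *
      PowerSeries.map (ev x) (psExp (expo r))) := by
  have h : ev x (PowerSeries.coeff r (PowerSeries.exp ℚ[X] * bernoulliPowerSeries ℚ[X] ^ (r + 1) *
      psExp (expo r))) = PowerSeries.coeff r (PowerSeries.exp ℚ * bernoulliPowerSeries ℚ ^ (r + 1) *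
      PowerSeries.map (ev x) (psExp (expo r))) := by
    rw [← PowerSeries.coeff_map, map_mul (PowerSeries.map (ev x)),
      map_mul (PowerSeries.map (ev x)), map_pow (PowerSeries.map (ev x)), map_bern,
      PowerSeries.map_exp]
  rw [← h]
  unfold P01
  rw [eval_mul, eval_C]
  rfl

lemma coeff_expo (x : ℚ) (n : ℕ) (h1 : 1 ≤ n) (h8 : n ≤ 8) :
    PowerSeries.coeff n (PowerSeries.map (ev x) (expo 8)) =
      (-1) ^ (n + 1) * _root_.bernoulli n / (n * (n.factorial : ℚ)) * ((faul n).eval x - x) := by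
  rw [PowerSeries.coeff_map]
  unfold expo
  rw [map_sum, Finset.sum_eq_single_of_mem n (Finset.mem_Icc.2 ⟨h1, h8⟩)]
  · rw [PowerSeries.coeff_monomial_same]
    simp [ev]
  · intro j _ hj
    rw [PowerSeries.coeff_monomial, if_neg (fun h => hj h.symm)]

lemma coeff_expo_zero (x : ℚ) :
    PowerSeries.coeff 0 (PowerSeries.map (ev x) (expo 8)) = 0 := by
  rw [PowerSeries.coeff_map]
  unfold expo
  rw [map_sum, Finset.sum_eq_zero, map_zero]
  intro j hj
  rw [PowerSeries.coeff_monomial, if_neg]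
  rw [Finset.mem_Icc] at hj
  omega

lemma tr_a3 : Tr (PowerSeries.map (ev 3) (expo 8)) la1 := by
  intro n hn
  obtain ⟨b0, b1, b2, b3, b4, b5, b6, b7, b8⟩ := bern_vals
  obtain ⟨f0, f1, f2, f3, f4, f5, f6, f7, f8⟩ := facs
  have hf : ∀ j : ℕ, 1 ≤ j → (faul j).eval 3 = 1 + 2 ^ j + 3 ^ j := by
    intro j hj
    have := faul_eval j hj 3
    rw [Nat.cast_ofNat] at this
    rw [this]
    simp [Finset.sum_Icc_succ_top]
  rcases Nat.eq_zero_or_pos n with h0 | h0
  · subst h0
    rw [coeff_expo_zero]; norm_num [la1]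
  · rw [coeff_expo 3 n h0 hn, hf n h0]
    interval_cases n
    · rw [b1, f1]; norm_num [la1]
    · rw [b2, f2]; norm_num [la1]
    · rw [b3, f3]; norm_num [la1]
    · rw [b4, f4]; norm_num [la1]
    · rw [b5, f5]; norm_num [la1]
    · rw [b6, f6]; norm_num [la1]
    · rw [b7, f7]; norm_num [la1]
    · rw [b8, f8]; norm_num [la1]

lemma tr_one : Tr (1 : PowerSeries ℚ) la0 := by
  intro n hn
  rw [PowerSeries.coeff_one]
  interval_cases n <;> norm_num [la0]

lemma tr_E3 : Tr (PowerSeries.map (ev 3) (psExp (expo 8))) lE := by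
  set A := PowerSeries.map (ev 3) (expo 8) with hA
  have p0 : Tr (A ^ 0) la0 := by rw [pow_zero]; exact tr_one
  have p1 : Tr (A ^ 1) la1 := by rw [pow_one]; exact tr_a3
  have p2 : Tr (A ^ 2) la2 := by rw [pow_succ]; exact p1.mul' tr_a3 (by decide +kernel)
  have p3 : Tr (A ^ 3) la3 := by rw [pow_succ]; exact p2.mul' tr_a3 (by decide +kernel)
  have p4 : Tr (A ^ 4) la4 := by rw [pow_succ]; exact p3.mul' tr_a3 (by decide +kernel)
  have p5 : Tr (A ^ 5) la5 := by rw [pow_succ]; exact p4.mul' tr_a3 (by decide +kernel)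
  have p6 : Tr (A ^ 6) la6 := by rw [pow_succ]; exact p5.mul' tr_a3 (by decide +kernel)
  have p7 : Tr (A ^ 7) la7 := by rw [pow_succ]; exact p6.mul' tr_a3 (by decide +kernel)
  have p8 : Tr (A ^ 8) la8 := by rw [pow_succ]; exact p7.mul' tr_a3 (by decide +kernel)
  obtain ⟨f0, f1, f2, f3, f4, f5, f6, f7, f8⟩ := facs
  intro n hn
  rw [coeff_map_psExp, ← hA]
  have e0 := p0 n hn
  have e1 := p1 n hn
  have e2 := p2 n hn
  have e3 := p3 n hn
  have e4 := p4 n hn
  have e5 := p5 n hn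
  have e6 := p6 n hn
  have e7 := p7 n hn
  have e8 := p8 n hn
  interval_cases n <;>
  · simp only [Finset.sum_range_succ, Finset.sum_range_zero, f0, f1, f2, f3, f4, f5, f6, f7, f8,
      e0, e1, e2, e3, e4, e5, e6, e7, e8]
    norm_num [la0, la1, la2, la3, la4, la5, la6, la7, la8, lE]

lemma val3 : (P01 8).eval 3 = (-4) ^ 8 * 40320 * (-269 / 20736) := by
  rw [eval_P01]
  have h := tr_eb.mul tr_E3 8 le_rfl
  rw [h, facs.2.2.2.2.2.2.2.2]
  have h2 : (mulL leb lE).getD 8 0 = -269 / 20736 := by decide +kernel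
  rw [h2]

lemma map_expo_zero (x : ℚ) (hx : ∀ j : ℕ, 1 ≤ j → (faul j).eval x = x) :
    PowerSeries.map (ev x) (expo 8) = 0 := by
  unfold expo
  rw [map_sum]
  refine Finset.sum_eq_zero fun j hj => ?_
  rw [Finset.mem_Icc] at hj
  ext n
  rw [PowerSeries.coeff_map, PowerSeries.coeff_monomial]
  split_ifs
  · rw [map_mul, map_sub]
    have : ev x (faul j) - ev x X = 0 := by
      have := hx j hj.1
      simp only [ev, coe_evalRingHom, eval_X]
      rw [this, sub_self]
    rw [this, mul_zero]; simp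
  · simp

lemma val01 (x : ℚ) (hx : ∀ j : ℕ, 1 ≤ j → (faul j).eval x = x) : (P01 8).eval x = 0 := by
  rw [eval_P01]
  have h1 : Tr (PowerSeries.map (ev x) (psExp (expo 8))) la0 := by
    intro n hn
    rw [coeff_map_psExp, map_expo_zero x hx]
    interval_cases n <;>
    simp [Finset.sum_range_succ, la0, PowerSeries.coeff_one]
  have h := tr_eb.mul h1 8 le_rfl
  rw [h]
  have h2 : (mulL leb la0).getD 8 0 = 0 := by decide +kernel
  rw [h2, mul_zero]

lemma val0 : (P01 8).eval 0 = 0 := by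
  refine val01 0 fun j hj => ?_
  have := faul_eval j hj 0
  simpa using this

lemma val1 : (P01 8).eval 1 = 0 := by
  refine val01 1 fun j hj => ?_
  have := faul_eval j hj 1
  simpa using this

/-- The second derivative of `P_{018}` is negative at some real point: `P_{018}` is not convex.
So not every `P_{01r}` is both alternating and convex. -/
theorem result :
    (∃ x : ℝ, Polynomial.aeval x (derivative (derivative (P01 8))) < 0) ∧
      ¬ ∀ r : ℕ, 1 ≤ r → (∀ k : ℕ, 1 ≤ k → k ≤ 2 * r → 0 < (-1) ^ k * (P01 r).coeff k) ∧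
        ∀ x : ℝ, 0 ≤ Polynomial.aeval x (derivative (derivative (P01 r))) := by
  have key : ∃ x : ℝ, Polynomial.aeval x (derivative (derivative (P01 8))) < 0 := by
    by_contra hcon
    push Not at hcon
    set g : ℝ[X] := (P01 8).map (algebraMap ℚ ℝ) with hg
    have hg2 : ∀ x : ℝ, 0 ≤ (derivative (derivative g)).eval x := by
      intro x
      have := hcon x
      rw [hg, derivative_map, derivative_map, eval_map_algebraMap]
      exact this
    have hconv : ConvexOn ℝ Set.univ (fun x : ℝ => g.eval x) := by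
      refine convexOn_univ_of_deriv2_nonneg g.differentiable ?_ ?_
      · have : deriv (fun x : ℝ => g.eval x) = fun x => (derivative g).eval x := by
          ext x; exact g.deriv
        rw [this]
        exact (derivative g).differentiable
      · intro x
        have : deriv^[2] (fun x : ℝ => g.eval x) = fun x => (derivative (derivative g)).eval x := by
          simp only [Function.iterate_succ, Function.iterate_zero, Function.comp, id]
          have h1 : deriv (fun x : ℝ => g.eval x) = fun x => (derivative g).eval x := by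
            ext x; exact g.deriv
          rw [h1]
          ext x
          exact (derivative g).deriv
        rw [this]
        exact hg2 x
    have h := hconv.2 (Set.mem_univ (0 : ℝ)) (Set.mem_univ (3 : ℝ))
      (by norm_num : (0 : ℝ) ≤ 2 / 3) (by norm_num : (0 : ℝ) ≤ 1 / 3) (by norm_num)
    have e0 : g.eval 0 = 0 := by
      rw [hg, eval_map_algebraMap]
      have := Polynomial.aeval_algebraMap_apply ℝ (0 : ℚ) (P01 8)
      simp only [map_zero] at this
      rw [this]
      simp [Polynomial.coe_aeval_eq_eval, val0]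
    have e1 : g.eval 1 = 0 := by
      rw [hg, eval_map_algebraMap]
      have := Polynomial.aeval_algebraMap_apply ℝ (1 : ℚ) (P01 8)
      simp only [map_one] at this
      rw [this]
      simp [Polynomial.coe_aeval_eq_eval, val1]
    have e3 : g.eval 3 = (((-4) ^ 8 * 40320 * (-269 / 20736) : ℚ) : ℝ) := by
      rw [hg, eval_map_algebraMap]
      have := Polynomial.aeval_algebraMap_apply ℝ (3 : ℚ) (P01 8)
      rw [show (algebraMap ℚ ℝ) 3 = (3 : ℝ) by norm_num] at this
      rw [this, Polynomial.coe_aeval_eq_eval, val3]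
      rfl
    have h13 : (2 / 3 : ℝ) • (0 : ℝ) + (1 / 3 : ℝ) • (3 : ℝ) = 1 := by norm_num
    rw [h13] at h
    simp only [e0, e1, e3] at h
    norm_num at h
  refine ⟨key, fun h => ?_⟩
  obtain ⟨x, hx⟩ := key
  exact absurd ((h 8 (by norm_num)).2 x) (not_le.2 hx)

end Pool.Agent.Results.MP_dbc085_nt.NotConvex
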